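import Mathlib
import Pool.Agent.H.MP_f1805c_gt.A

open Set Filter Topology Pool.Agent.H.MP_f1805c_gt

namespace Pool.Agent.Results.MP_bb2768_gt.NotPrecompact

theorem result : ∃ (G : Type) (_ : AddCommGroup G) (_ : TopologicalSpace G),
    IsTopologicalAddGroup G ∧ T2Space G ∧
    (∃ (K : Type) (_ : TopologicalSpace K) (_ : CompactSpace K) (_ : T2Space K) (e : G → K),
      IsDenseEmbedding e ∧ ∀ s : Set K, IsGδ s → s.Nonempty → ∃ g, e g ∈ s) ∧
    (∀ f : G → ℝ, Continuous f → ∃ (H : Type) (_ : AddCommGroup H) (_ : TopologicalSpace H),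
      IsTopologicalAddGroup H ∧ T2Space H ∧ SecondCountableTopology H ∧
      ∃ (π : G →+ H) (h : H → ℝ), Continuous π ∧ Function.Surjective π ∧ Continuous h ∧
        f = h ∘ π) ∧
    ¬ ∀ U ∈ 𝓝 (0 : G), ∃ F : Set G, F.Finite ∧ ∀ g, ∃ f ∈ F, ∃ u ∈ U, f + u = g := by
  classical
  refine ⟨Sig ℝ × ℤ, inferInstance, inferInstance, inferInstance, inferInstance, weak,
    fun f hf => ?_, notpre⟩
  choose S hS hS' using fun n : ℤ => dep (fun x => f (x, n)) (by fun_prop)
  have hT : (⋃ n, S n).Countable := countable_iUnion hS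
  have := hT.to_subtype
  let r : Sig ℝ →+ ((⋃ n, S n) → ZMod 2) :=
    ⟨⟨fun x i => x.1 i, rfl⟩, fun _ _ => rfl⟩
  let j : ((⋃ n, S n) → ZMod 2) → Sig ℝ := fun z => ext0 hT (Function.extend Subtype.val z 0)
  have hj : ∀ z i (hi : i ∈ ⋃ n, S n), (j z).1 i = z ⟨i, hi⟩ := fun z i hi => by
    simp only [j, ext0, indicator_of_mem hi]
    exact Subtype.val_injective.extend_apply _ _ ⟨i, hi⟩
  have hc : Continuous j := by
    refine Continuous.subtype_mk (f := fun z => (j z).1) (continuous_pi fun i => ?_) _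
    by_cases hi : i ∈ ⋃ n, S n
    · simp only [hj _ i hi]; fun_prop
    · simp only [j, ext0, indicator_of_notMem hi]; fun_prop
  refine ⟨((⋃ n, S n) → ZMod 2) × ℤ, inferInstance, inferInstance, inferInstance, inferInstance,
    inferInstance, r.prodMap (AddMonoidHom.id ℤ), fun p => f (j p.1, p.2), ?_,
    fun p => ⟨(j p.1, p.2), Prod.ext (funext fun i => hj _ _ i.2) rfl⟩, by fun_prop,
    funext fun g => hS' g.2 _ _ fun i hi => (hj (r g.1) i (mem_iUnion.2 ⟨_, hi⟩)).symm⟩
  have hr : Continuous r := continuous_pi fun i =>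
    (continuous_apply i.1).comp continuous_subtype_val
  exact hr.prodMap continuous_id

end Pool.Agent.Results.MP_bb2768_gt.NotPrecompact
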